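import Pool.Agent.Helper59_LPW.Core

/-!
# Squad LPW, row FRL (helper59): full rank on all lines through separated points
-/

set_option autoImplicit false

open Polynomial Filter Topology
open Pool.Agent.LUB (FullRank sp spr)
open Pool.Agent.Helper65_Dens (Par gpoly Ix degs prodPoly ixMap Sep gpoly_monic gpoly_natDegree)

namespace Pool.Agent.LPW.H59

theorem sp_res (f : (MvPolynomial (Fin 2) ℤ)[X]) (P v : Fin 2 → ℤ) (t : ℤ) :
    sp (res f P v) t = spr2 f (fun m => P m + v m * t) := by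
  unfold sp res spr2
  rw [Polynomial.map_map]
  congr 1
  apply MvPolynomial.ringHom_ext
  · intro r
    simp
  · intro m
    simp

theorem aeval_eq (p : ℤ[X]) (z : ℂ) : aeval z p = (p.map (Int.castRingHom ℂ)).eval z := by
  rw [eval_map, aeval_def]
  rfl

theorem frl : FrlStmt := by
  intro hHrm hNrt hSpg hDsa hDsb r₁ r₂ hr a i hi r e he hei P hSep v hv
  obtain ⟨hs1, hs2, hs3, -⟩ := hSpg r₁ r₂ hr a i hi
  obtain ⟨A, k₁, hA, hdsa⟩ := hDsa r₁ r₂ a i hi P v
  obtain ⟨k₂, hdsb⟩ := hDsb r₁ r₂ a i hi P v hSep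
  set h : ℕ → Fin r₁ ⊕ Fin r₂ → ℂ[X] := fun k j =>
    (fac (shg (fun m => cst (i m)) a fun m => P m + v m * k) j).map (Int.castRingHom ℂ) with hh
  have hfm : ∀ k j, (fac (shg (fun m => cst (i m)) a fun m => P m + v m * ((k : ℕ) : ℤ))
      j).Monic := fun k j => gpoly_monic _ _
  have hfd : ∀ k j, (fac (shg (fun m => cst (i m)) a fun m => P m + v m * ((k : ℕ) : ℤ))
      j).natDegree = degs r₁ r₂ j := fun k j => gpoly_natDegree _ _
  have hhm : ∀ k j, (h k j).Monic := fun k j => (hfm k j).map _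
  have hhd : ∀ k j, (h k j).natDegree = degs r₁ r₂ j := by
    intro k j
    rw [hh, ← hfd k j]
    exact (hfm k j).natDegree_map _
  have hdp : ∀ j, 0 < degs r₁ r₂ j ∧ degs r₁ r₂ j ≤ 2 := by
    rintro (j | j)
    · exact ⟨Nat.one_pos, by simp [degs]⟩
    · exact ⟨Nat.two_pos, le_refl 2⟩
  set mv : Fin r₁ ⊕ Fin r₂ → Prop := fun j => ∃ m, j = i m ∧ v m ≠ 0 with hmvdef
  have hmv0 : mv (i 0) ↔ v 0 ≠ 0 := by
    constructor
    · rintro ⟨m, hm, hvm⟩
      rw [hi hm]
      exact hvm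
    · intro h'
      exact ⟨0, rfl, h'⟩
  have hmv1 : mv (i 1) ↔ v 1 ≠ 0 := by
    constructor
    · rintro ⟨m, hm, hvm⟩
      rw [hi hm]
      exact hvm
    · intro h'
      exact ⟨1, rfl, h'⟩
  have hmvn : ∀ j, j ≠ i 0 → j ≠ i 1 → ¬ mv j := by
    rintro j h0 h1 ⟨m, hm, -⟩
    fin_cases m
    · exact h0 hm
    · exact h1 hm
  have hthird : ∃ j, j ≠ i 0 ∧ j ≠ i 1 := by
    by_contra hcon
    push Not at hcon
    have h1 : (Finset.univ : Finset (Fin r₁ ⊕ Fin r₂)) ⊆ {i 0, i 1} := by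
      intro j _
      rw [Finset.mem_insert, Finset.mem_singleton]
      by_cases hj : j = i 0
      · exact Or.inl hj
      · exact Or.inr (hcon j hj)
    have h2 := Finset.card_le_card h1
    rw [Finset.card_univ, Fintype.card_sum, Fintype.card_fin, Fintype.card_fin] at h2
    have h3 : ({i 0, i 1} : Finset (Fin r₁ ⊕ Fin r₂)).card ≤ 2 := Finset.card_le_two
    omega
  obtain ⟨j₃, hj₃0, hj₃1⟩ := hthird
  have hi01 : i 0 ≠ i 1 := fun h' => by
    have := hi h'
    exact absurd this (by decide)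
  obtain ⟨c, hc, hinf⟩ := core hHrm hNrt h hhm (fun k j => by rw [hhd]; exact (hdp j).1)
    (fun k j => by rw [hhd]; exact (hdp j).2) mv (i 1) A (max k₁ k₂) hA
    (fun k hk j ρ hρ hm => by
      have h1 := (hdsa k ((le_max_left _ _).trans hk) j ρ hρ).1 hm
      exact ⟨h1.1, h1.2.1⟩)
    (fun k hk j ρ hρ hm => (hdsa k ((le_max_left _ _).trans hk) j ρ hρ).2 hm)
    (fun k hk j j' ρ ρ' hjj' hρ hρ' =>
      hdsb k ((le_max_right _ _).trans hk) j j' ρ ρ' hjj' hρ hρ')
    (by
      intro j hj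
      by_cases hv1 : v 1 = 0
      · have hv0 : v 0 ≠ 0 := by
          intro hv0
          apply hv
          funext m
          fin_cases m
          · exact hv0
          · exact hv1
        have e0 : mv (i 0) := hmv0.2 hv0
        have e1 : ¬ mv (i 1) := fun h' => (hmv1.1 h') hv1
        by_cases hj0 : j = i 0
        · left
          rw [hj0]
          exact ⟨fun h' => absurd h' e1, fun h' => absurd e0 h'⟩
        · right
          refine ⟨i 0, ⟨fun _ => hmvn j hj0 hj, fun _ => e0⟩, ?_⟩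
          exact ⟨fun h' => absurd h' e1, fun h' => absurd e0 h'⟩
      · have e1 : mv (i 1) := hmv1.2 hv1
        by_cases hjm : mv j
        · right
          have hn := hmvn j₃ hj₃0 hj₃1
          exact ⟨j₃, ⟨fun h' => absurd h' hn, fun h' => absurd hjm h'⟩, ⟨fun _ => hn, fun _ => e1⟩⟩
        · left
          exact ⟨fun _ => hjm, fun _ => e1⟩)
  -- the reindexing
  have hεbij : Function.Bijective
      (fun l : Fin r => (⟨e l, (hei (e l)).1 ⟨l, rfl⟩⟩ : {j // j ≠ i 1})) := by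
    constructor
    · intro l l' hll
      exact he (congrArg Subtype.val hll)
    · rintro ⟨j, hj⟩
      obtain ⟨l, hl⟩ := (hei j).2 hj
      exact ⟨l, Subtype.ext hl⟩
  set ε : Fin r ≃ {j // j ≠ i 1} := Equiv.ofBijective _ hεbij with hε
  have hcard : Fintype.card {j // j ≠ i 1} = r := by
    rw [← Fintype.card_congr ε, Fintype.card_fin]
  refine ⟨c, hc, ?_⟩
  refine (hinf.image (f := fun k : ℕ => (k : ℤ)) (Nat.cast_injective.injOn)).mono ?_
  rintro _ ⟨k, ⟨z, hz1, hz2⟩, rfl⟩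
  refine ⟨fun l => z (e l), ?_, ?_⟩
  · intro l
    rw [sp_res, hs2, ← hs3, map_sub, map_prod, map_one, sub_eq_zero]
    have h1 := hz1 (e l)
    rw [eval_prod] at h1
    rw [← h1]
    apply Finset.prod_congr rfl
    intro j _
    rw [aeval_eq]
  · have h3 : (Matrix.of fun (l m : Fin r) =>
        Real.log ‖aeval (z (e m)) (sp (res (gg a i (e l)) P v) (k : ℤ))‖) =
        (Matrix.of fun (i' j' : {j // j ≠ i 1}) =>
          Real.log ‖(h k i').eval (z j')‖).submatrix ε ε := by
      ext l m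
      rw [Matrix.of_apply, Matrix.submatrix_apply, Matrix.of_apply, sp_res, hs1, aeval_eq]
      rfl
    have h4 : |(((k : ℕ) : ℤ) : ℝ)| = k := by
      rw [Int.cast_natCast]
      exact abs_of_nonneg (Nat.cast_nonneg k)
    rw [h4, h3, Matrix.det_submatrix_equiv_self]
    rw [hcard] at hz2
    exact hz2

end Pool.Agent.LPW.H59
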