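import Pool.Agent.LPW.StmtsD

/-!
# Squad LPW, row FRL (helper59), core: regulators of products of separated polynomials
-/

set_option autoImplicit false

open Polynomial Filter Topology

namespace Pool.Agent.LPW.H59

theorem ms_one_le (s : Multiset ℝ) (h : ∀ x ∈ s, 1 ≤ x) : 1 ≤ s.prod := by
  induction s using Multiset.induction with
  | empty => simp
  | cons a s ih =>
    rw [Multiset.prod_cons]
    have h1 := h a (Multiset.mem_cons_self a s)
    have h2 := ih fun x hx => h x (Multiset.mem_cons_of_mem hx)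
    nlinarith

theorem ms_ge (s : Multiset ℝ) (h : ∀ x ∈ s, 1 ≤ x) (a : ℝ) (ha : a ∈ s) : a ≤ s.prod := by
  obtain ⟨t, rfl⟩ := Multiset.exists_cons_of_mem ha
  rw [Multiset.prod_cons]
  have h1 := h a (Multiset.mem_cons_self a t)
  have h2 := ms_one_le t fun x hx => h x (Multiset.mem_cons_of_mem hx)
  nlinarith

theorem ms_le (s : Multiset ℝ) (U : ℝ) (hU : 1 ≤ U) (h0 : ∀ x ∈ s, 0 ≤ x) (h : ∀ x ∈ s, x ≤ U) :
    s.prod ≤ U ^ s.card ∧ 0 ≤ s.prod := by
  induction s using Multiset.induction with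
  | empty => simp
  | cons a s ih =>
    rw [Multiset.prod_cons, Multiset.card_cons, pow_succ]
    have h1 := h a (Multiset.mem_cons_self a s)
    have h2 := h0 a (Multiset.mem_cons_self a s)
    obtain ⟨h3, h4⟩ := ih (fun x hx => h0 x (Multiset.mem_cons_of_mem hx))
      fun x hx => h x (Multiset.mem_cons_of_mem hx)
    refine ⟨?_, mul_nonneg h2 h4⟩
    rw [mul_comm]
    exact mul_le_mul h3 h1 h2 (pow_nonneg (by linarith) _)

theorem norm_ms (s : Multiset ℂ) (z : ℂ) :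
    ‖(s.map fun ρ => z - ρ).prod‖ = (s.map fun ρ => ‖z - ρ‖).prod := by
  induction s using Multiset.induction with
  | empty => simp
  | cons a s ih =>
    rw [Multiset.map_cons, Multiset.map_cons, Multiset.prod_cons, Multiset.prod_cons, norm_mul,
      ih]

theorem norm_eval (H : ℂ[X]) (hH : H.Monic) (z : ℂ) :
    ‖H.eval z‖ = (H.roots.map fun ρ => ‖z - ρ‖).prod := by
  rw [(IsAlgClosed.splits H).eval_eq_prod_roots_of_monic hH, norm_ms]

/-- bounds for the value of a monic polynomial of degree at most two -/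
theorem val_bounds (H : ℂ[X]) (hH : H.Monic) (hd : 0 < H.natDegree) (hd2 : H.natDegree ≤ 2)
    (z : ℂ) (U : ℝ) (h1 : ∀ σ, H.eval σ = 0 → 1 ≤ ‖z - σ‖ ∧ ‖z - σ‖ ≤ U) :
    1 ≤ ‖H.eval z‖ ∧ ‖H.eval z‖ ≤ U ^ 2 ∧ ∃ σ, H.eval σ = 0 ∧ ‖z - σ‖ ≤ ‖H.eval z‖ := by
  have hmem : ∀ x ∈ H.roots.map fun ρ => ‖z - ρ‖, 1 ≤ x ∧ x ≤ U := by
    intro x hx
    obtain ⟨σ, hσ, rfl⟩ := Multiset.mem_map.1 hx
    exact h1 σ (isRoot_of_mem_roots hσ)
  obtain ⟨σ₀, hσ₀⟩ := IsAlgClosed.exists_root H (by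
    intro h
    rw [natDegree_eq_of_degree_eq_some (n := 0) (by simpa using h)] at hd
    exact lt_irrefl 0 hd)
  have hU : 1 ≤ U := (h1 σ₀ hσ₀).1.trans (h1 σ₀ hσ₀).2
  rw [norm_eval H hH z]
  refine ⟨ms_one_le _ fun x hx => (hmem x hx).1, ?_, σ₀, hσ₀, ?_⟩
  · refine (ms_le _ U hU (fun x hx => by linarith [(hmem x hx).1])
      fun x hx => (hmem x hx).2).1.trans ?_
    apply pow_le_pow_right₀ hU
    rw [Multiset.card_map]
    exact (card_roots' H).trans hd2
  · apply ms_ge _ fun x hx => (hmem x hx).1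
    exact Multiset.mem_map.2 ⟨σ₀, (mem_roots hH.ne_zero).2 hσ₀, rfl⟩

/-- the numerical estimate for a pair of factors one of which moves -/
theorem far (A k M : ℝ) (hA : 1 ≤ A) (hk : (32 + 2 * (A + 1)) ^ 4 ≤ k) (hM0 : 0 ≤ M)
    (hM : k ≤ M ^ 4) (x : ℝ) (hx : M - A - 1 ≤ x) : k ≤ x ^ 5 := by
  have h1 : 32 + 2 * (A + 1) ≤ M := by
    by_contra h
    push Not at h
    have h2 : M ^ 4 < (32 + 2 * (A + 1)) ^ 4 := pow_lt_pow_left₀ h hM0 (by norm_num)
    linarith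
  have h2 : M / 2 ≤ x := by linarith
  have h3 : (M / 2) ^ 5 ≤ x ^ 5 := pow_le_pow_left₀ (by linarith) h2 5
  have h4 : M ^ 4 ≤ (M / 2) ^ 5 := by
    have h5 : (M / 2) ^ 5 = M ^ 4 * (M / 32) := by ring
    rw [h5]
    have h6 : 1 ≤ M / 32 := by linarith
    have h7 : 0 ≤ M ^ 4 := by positivity
    nlinarith
  linarith

theorem core {J : Type} [Fintype J] [DecidableEq J] (hHrm : HrmStmt) (hNrt : NrtStmt)
    (h : ℕ → J → ℂ[X]) (hmon : ∀ k j, (h k j).Monic)
    (hdeg : ∀ k j, 0 < (h k j).natDegree) (hdeg2 : ∀ k j, (h k j).natDegree ≤ 2)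
    (mv : J → Prop) (ω : J) (A : ℝ) (k₀ : ℕ) (hA : 1 ≤ A)
    (hmv : ∀ k, k₀ ≤ k → ∀ j ρ, (h k j).eval ρ = 0 → mv j → (k : ℝ) ≤ ‖ρ‖ ^ 4 ∧ ‖ρ‖ ≤ A * k)
    (hnm : ∀ k, k₀ ≤ k → ∀ j ρ, (h k j).eval ρ = 0 → ¬ mv j → ‖ρ‖ ≤ A)
    (hsep : ∀ k, k₀ ≤ k → ∀ j j' ρ ρ', j ≠ j' → (h k j).eval ρ = 0 → (h k j').eval ρ' = 0 →
      2 ≤ ‖ρ - ρ'‖)
    (hω : ∀ j, j ≠ ω → (mv ω ↔ ¬ mv j) ∨ ∃ j', (mv j' ↔ ¬ mv j) ∧ (mv ω ↔ ¬ mv j')) :
    ∃ c : ℝ, 0 < c ∧ {k : ℕ | ∃ z : J → ℂ, (∀ j, (∏ i, h k i).eval (z j) = 1) ∧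
      c * Real.log k ^ Fintype.card {i // i ≠ ω} ≤
        |(Matrix.of fun (i j : {i // i ≠ ω}) =>
          Real.log ‖(h k i).eval (z j)‖).det|}.Infinite := by
  -- the roots
  have hz : ∀ k j, ∃ ρ z : ℂ, (h k j).eval ρ = 0 ∧ (∏ i, h k i).eval z = 1 ∧ ‖z - ρ‖ ≤ 1 := by
    intro k j
    obtain ⟨ρ, hρ⟩ := IsAlgClosed.exists_root (h k j) (by
      intro h'
      have h1 := hdeg k j
      rw [natDegree_eq_of_degree_eq_some (n := 0) (by simpa using h')] at h1
      exact lt_irrefl 0 h1)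
    have hρ' : (h k j).eval ρ = 0 := hρ
    have hpm : (∏ i, h k i).Monic := monic_prod_of_monic _ _ fun i _ => hmon k i
    have hpd : 0 < (∏ i, h k i).natDegree := by
      rw [natDegree_prod_of_monic _ _ fun i _ => hmon k i]
      exact Finset.sum_pos (fun i _ => hdeg k i) ⟨ω, Finset.mem_univ ω⟩
    have hFm : (∏ i, h k i - C 1).Monic := by
      apply hpm.sub_of_left
      rw [degree_eq_natDegree hpm.ne_zero]
      refine lt_of_le_of_lt degree_C_le ?_
      exact_mod_cast hpd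
    have hFd : 0 < (∏ i, h k i - C 1).natDegree := by
      rw [natDegree_sub_C]
      exact hpd
    obtain ⟨z, hz1, hz2⟩ := hNrt (∏ i, h k i - C 1) ρ hFm hFd (by
      rw [eval_sub, eval_prod, Finset.prod_eq_zero (Finset.mem_univ j) hρ', eval_C, zero_sub,
        norm_neg, norm_one])
    refine ⟨ρ, z, hρ', ?_, hz2⟩
    rw [eval_sub, eval_C, sub_eq_zero] at hz1
    exact hz1
  choose ρ z hρ hz1 hz2 using hz
  -- the threshold
  obtain ⟨K₁, hK₁⟩ : ∃ K₁ : ℕ, k₀ ≤ K₁ ∧ 2 ≤ K₁ ∧ 9 * A ^ 2 ≤ (K₁ : ℝ) ∧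
      (32 + 2 * (A + 1)) ^ 4 ≤ (K₁ : ℝ) := by
    refine ⟨max (max k₀ 2) (max ⌈9 * A ^ 2⌉₊ ⌈(32 + 2 * (A + 1)) ^ 4⌉₊), ?_, ?_, ?_, ?_⟩
    · exact (le_max_left _ _).trans (le_max_left _ _)
    · exact (le_max_right _ _).trans (le_max_left _ _)
    · refine (Nat.le_ceil _).trans ?_
      exact_mod_cast (le_max_left _ _).trans (le_max_right _ _)
    · refine (Nat.le_ceil _).trans ?_
      exact_mod_cast (le_max_right _ _).trans (le_max_right _ _)
  obtain ⟨hKk, hK2, hK9, hK32⟩ := hK₁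
  have hlogpos : ∀ k : ℕ, K₁ ≤ k → 0 < Real.log k := by
    intro k hk
    apply Real.log_pos
    have : 2 ≤ k := hK2.trans hk
    exact_mod_cast this
  have hroot : ∀ k : ℕ, K₁ ≤ k → ∀ j σ, (h k j).eval σ = 0 → ‖σ‖ ≤ A * k := by
    intro k hk j σ hσ
    by_cases hm : mv j
    · exact (hmv k (hKk.trans hk) j σ hσ hm).2
    · refine (hnm k (hKk.trans hk) j σ hσ hm).trans ?_
      have h2 : 2 ≤ k := hK2.trans hk
      have h1 : (2 : ℝ) ≤ k := by exact_mod_cast h2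
      nlinarith
  have hfac : ∀ k : ℕ, K₁ ≤ k → ∀ i j, i ≠ j → ∀ σ, (h k i).eval σ = 0 →
      1 ≤ ‖z k j - σ‖ ∧ ‖z k j - σ‖ ≤ 3 * A * k := by
    intro k hk i j hij σ hσ
    have h1 := hsep k (hKk.trans hk) j i (ρ k j) σ hij.symm (hρ k j) hσ
    have h2 := hz2 k j
    have h3 := hroot k hk j _ (hρ k j)
    have h4 := hroot k hk i σ hσ
    have h5 : (2 : ℝ) ≤ k := by exact_mod_cast hK2.trans hk
    constructor
    · have h6 : ‖ρ k j - σ‖ ≤ ‖z k j - σ‖ + ‖z k j - ρ k j‖ := by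
        have := norm_sub_le (z k j - σ) (z k j - ρ k j)
        rwa [show z k j - σ - (z k j - ρ k j) = ρ k j - σ by ring] at this
      linarith
    · have h6 : ‖z k j - σ‖ ≤ ‖z k j - ρ k j‖ + ‖ρ k j - σ‖ := by
        have := norm_add_le (z k j - ρ k j) (ρ k j - σ)
        rwa [show z k j - ρ k j + (ρ k j - σ) = z k j - σ by ring] at this
      have h7 := norm_sub_le (ρ k j) σ
      nlinarith
  -- off diagonal bounds
  have hoff : ∀ k : ℕ, K₁ ≤ k → ∀ i j, i ≠ j → 0 ≤ Real.log ‖(h k i).eval (z k j)‖ ∧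
      Real.log ‖(h k i).eval (z k j)‖ ≤ 3 * Real.log k ∧
      ((mv i ↔ ¬ mv j) → (1 / 5) * Real.log k ≤ Real.log ‖(h k i).eval (z k j)‖) := by
    intro k hk i j hij
    obtain ⟨h1, h2, σ, hσ, h3⟩ := val_bounds (h k i) (hmon k i) (hdeg k i) (hdeg2 k i) (z k j)
      (3 * A * k) (hfac k hk i j hij)
    have hk9 : 9 * A ^ 2 ≤ (k : ℝ) := hK9.trans (by exact_mod_cast hk)
    have hk32 : (32 + 2 * (A + 1)) ^ 4 ≤ (k : ℝ) := hK32.trans (by exact_mod_cast hk)
    have h5 : (2 : ℝ) ≤ k := by exact_mod_cast hK2.trans hk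
    refine ⟨Real.log_nonneg h1, ?_, ?_⟩
    · have h6 : ‖(h k i).eval (z k j)‖ ≤ (k : ℝ) ^ 3 := by
        refine h2.trans ?_
        have h7 : (3 * A * (k : ℝ)) ^ 2 = 9 * A ^ 2 * (k : ℝ) ^ 2 := by ring
        rw [h7, pow_succ (k : ℝ) 2, mul_comm ((k : ℝ) ^ 2)]
        exact mul_le_mul_of_nonneg_right hk9 (by positivity)
      calc Real.log ‖(h k i).eval (z k j)‖ ≤ Real.log ((k : ℝ) ^ 3) :=
            Real.log_le_log (by linarith) h6
        _ = 3 * Real.log k := by rw [Real.log_pow]; norm_num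
    · intro hm
      have hkey : (k : ℝ) ≤ ‖z k j - σ‖ ^ 5 := by
        have hd1 : ‖ρ k j‖ ≤ ‖z k j - σ‖ + ‖z k j - ρ k j‖ + ‖σ‖ := by
          have e1 := norm_sub_le (z k j - σ) (z k j - ρ k j)
          rw [show z k j - σ - (z k j - ρ k j) = ρ k j - σ by ring] at e1
          have e2 := norm_add_le (ρ k j - σ) σ
          rw [sub_add_cancel] at e2
          linarith
        have hd2 : ‖σ‖ ≤ ‖z k j - σ‖ + ‖z k j - ρ k j‖ + ‖ρ k j‖ := by
          have e1 := norm_sub_le (z k j - σ) (z k j - ρ k j)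
          rw [show z k j - σ - (z k j - ρ k j) = ρ k j - σ by ring] at e1
          have e2 := norm_sub_le (ρ k j) (ρ k j - σ)
          rw [sub_sub_cancel] at e2
          linarith
        have h2' := hz2 k j
        by_cases hj : mv j
        · have hi : ¬ mv i := fun hi => (hm.1 hi) hj
          have e1 := (hmv k (hKk.trans hk) j _ (hρ k j) hj).1
          have e2 := hnm k (hKk.trans hk) i σ hσ hi
          exact far A k ‖ρ k j‖ hA hk32 (norm_nonneg _) e1 _ (by linarith)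
        · have hi : mv i := hm.2 hj
          have e1 := (hmv k (hKk.trans hk) i _ hσ hi).1
          have e2 := hnm k (hKk.trans hk) j _ (hρ k j) hj
          exact far A k ‖σ‖ hA hk32 (norm_nonneg _) e1 _ (by linarith)
      have h6 : (k : ℝ) ≤ ‖(h k i).eval (z k j)‖ ^ 5 :=
        hkey.trans (pow_le_pow_left₀ (norm_nonneg _) h3 5)
      have h7 : Real.log k ≤ 5 * Real.log ‖(h k i).eval (z k j)‖ := by
        calc Real.log k ≤ Real.log (‖(h k i).eval (z k j)‖ ^ 5) :=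
              Real.log_le_log (by linarith) h6
          _ = 5 * Real.log ‖(h k i).eval (z k j)‖ := by rw [Real.log_pow]; norm_num
      linarith
  -- the sum rule
  have hsum : ∀ k j, ∑ i, Real.log ‖(h k i).eval (z k j)‖ = 0 := by
    intro k j
    have h1 := hz1 k j
    rw [eval_prod] at h1
    have h2 : ∏ i, ‖(h k i).eval (z k j)‖ = 1 := by
      rw [← norm_prod, h1, norm_one]
    rw [← Real.log_prod, h2, Real.log_one]
    intro i _ h3
    rw [Finset.prod_eq_zero (Finset.mem_univ i) h3] at h2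
    exact zero_ne_one h2
  -- the normalised matrices
  set u : ℕ → J → J → ℝ := fun n i j =>
    Real.log ‖(h (n + K₁) i).eval (z (n + K₁) j)‖ / Real.log ((n + K₁ : ℕ) : ℝ) with hu
  have hlp : ∀ n : ℕ, 0 < Real.log ((n + K₁ : ℕ) : ℝ) := fun n =>
    hlogpos (n + K₁) (Nat.le_add_left _ _)
  have hu0 : ∀ n i j, i ≠ j → 0 ≤ u n i j := fun n i j hij =>
    div_nonneg (hoff (n + K₁) (Nat.le_add_left _ _) i j hij).1 (hlp n).le
  have hu3 : ∀ n i j, i ≠ j → u n i j ≤ 3 := fun n i j hij =>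
    (div_le_iff₀ (hlp n)).2 (hoff (n + K₁) (Nat.le_add_left _ _) i j hij).2.1
  have hu5 : ∀ n i j, i ≠ j → (mv i ↔ ¬ mv j) → 1 / 5 ≤ u n i j := fun n i j hij hm =>
    (le_div_iff₀ (hlp n)).2 ((hoff (n + K₁) (Nat.le_add_left _ _) i j hij).2.2 hm)
  have husum : ∀ n j, ∑ i, u n i j = 0 := by
    intro n j
    simp only [hu]
    rw [← Finset.sum_div, hsum, zero_div]
  have hcard : (1 : ℝ) ≤ Fintype.card J := by
    have : 0 < Fintype.card J := Fintype.card_pos_iff.2 ⟨ω⟩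
    exact_mod_cast this
  have hbd : ∀ n, u n ∈ Set.Icc (fun (_ _ : J) => -(3 * (Fintype.card J : ℝ)))
      (fun (_ _ : J) => 3 * (Fintype.card J : ℝ)) := by
    intro n
    have key : ∀ i j, -(3 * (Fintype.card J : ℝ)) ≤ u n i j ∧ u n i j ≤ 3 * Fintype.card J := by
      intro i j
      by_cases hij : i = j
      · subst hij
        have h1 := husum n i
        rw [← Finset.add_sum_erase _ _ (Finset.mem_univ i)] at h1
        have h2 : 0 ≤ ∑ l ∈ Finset.univ.erase i, u n l i :=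
          Finset.sum_nonneg fun l hl => hu0 n l i (Finset.ne_of_mem_erase hl)
        have h3 : ∑ l ∈ Finset.univ.erase i, u n l i ≤ ∑ _l ∈ Finset.univ.erase i, (3 : ℝ) :=
          Finset.sum_le_sum fun l hl => hu3 n l i (Finset.ne_of_mem_erase hl)
        rw [Finset.sum_const, nsmul_eq_mul, Finset.card_erase_of_mem (Finset.mem_univ i),
          Finset.card_univ] at h3
        have h4 : (((Fintype.card J - 1 : ℕ)) : ℝ) ≤ Fintype.card J := by
          exact_mod_cast Nat.sub_le _ _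
        constructor <;> nlinarith
      · have h1 := hu0 n i j hij
        have h2 := hu3 n i j hij
        constructor <;> nlinarith
    exact ⟨fun i j => (key i j).1, fun i j => (key i j).2⟩
  obtain ⟨Λ, -, φ, hφ, hlim⟩ := isCompact_Icc.tendsto_subseq hbd
  have hlim' : ∀ i j, Tendsto (fun n => u (φ n) i j) atTop (𝓝 (Λ i j)) := by
    intro i j
    have h1 := tendsto_pi_nhds.1 hlim i
    exact tendsto_pi_nhds.1 h1 j
  have hΛ0 : ∀ i j, i ≠ j → 0 ≤ Λ i j := fun i j hij =>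
    ge_of_tendsto' (hlim' i j) fun n => hu0 (φ n) i j hij
  have hΛ5 : ∀ i j, i ≠ j → (mv i ↔ ¬ mv j) → 0 < Λ i j := by
    intro i j hij hm
    have h1 : (1 / 5 : ℝ) ≤ Λ i j := ge_of_tendsto' (hlim' i j) fun n => hu5 (φ n) i j hij hm
    linarith
  have hΛsum : ∀ j, ∑ i, Λ i j = 0 := by
    intro j
    have h1 : Tendsto (fun n => ∑ i, u (φ n) i j) atTop (𝓝 (∑ i, Λ i j)) :=
      tendsto_finsetSum _ fun i _ => hlim' i j
    simp only [husum] at h1
    exact tendsto_nhds_unique h1 tendsto_const_nhds |>.symm ▸ rfl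
  have hne : ∀ i j : J, (mv i ↔ ¬ mv j) → i ≠ j := by
    rintro i _ hm rfl
    by_cases h1 : mv i
    · exact (hm.1 h1) h1
    · exact h1 (hm.2 h1)
  have hdet := hHrm J Λ ω hΛ0 hΛsum (by
    intro j hj
    rcases hω j hj with h1 | ⟨j', h1, h2⟩
    · left
      exact hΛ5 ω j (hne _ _ h1) h1
    · right
      exact ⟨j', hΛ5 j' j (hne _ _ h1) h1, hΛ5 ω j' (hne _ _ h2) h2⟩)
  set δ := (Matrix.of fun (i j : {i // i ≠ ω}) => Λ i j).det with hδ
  have hdlim : Tendsto (fun n => (Matrix.of fun (i j : {i // i ≠ ω}) => u (φ n) i j).det) atTop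
      (𝓝 δ) := by
    have hcont : Continuous fun M : J → J → ℝ =>
        (Matrix.of fun (i j : {i // i ≠ ω}) => M i j).det := by
      apply Continuous.matrix_det
      apply continuous_matrix
      intro i j
      exact (continuous_apply (j : J)).comp (continuous_apply (i : J))
    exact (hcont.tendsto Λ).comp hlim
  have hδpos : 0 < |δ| := abs_pos.2 hdet
  have hev : ∀ᶠ n in atTop, |δ| / 2 <
      |(Matrix.of fun (i j : {i // i ≠ ω}) => u (φ n) i j).det| :=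
    (hdlim.abs).eventually (lt_mem_nhds (by linarith))
  obtain ⟨N, hN⟩ := eventually_atTop.1 hev
  refine ⟨|δ| / 2, by linarith, ?_⟩
  apply Set.infinite_of_injective_forall_mem (f := fun n : ℕ => φ (n + N) + K₁)
  · intro a b hab
    have h1 : φ (a + N) = φ (b + N) := by
      have : φ (a + N) + K₁ = φ (b + N) + K₁ := hab
      omega
    have h2 := hφ.injective h1
    omega
  · intro n
    have h1 := hN (n + N) (Nat.le_add_left _ _)
    refine ⟨z (φ (n + N) + K₁), hz1 (φ (n + N) + K₁), ?_⟩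
    have h2 : (Matrix.of fun (i j : {i // i ≠ ω}) =>
        Real.log ‖(h (φ (n + N) + K₁) i).eval (z (φ (n + N) + K₁) j)‖) =
        Real.log ((φ (n + N) + K₁ : ℕ) : ℝ) •
          (Matrix.of fun (i j : {i // i ≠ ω}) => u (φ (n + N)) i j) := by
      ext i j
      rw [Matrix.smul_apply, Matrix.of_apply, Matrix.of_apply, smul_eq_mul]
      simp only [hu]
      rw [mul_div_cancel₀ _ (hlp (φ (n + N))).ne']
    rw [h2, Matrix.det_smul, abs_mul, abs_pow, abs_of_pos (hlp (φ (n + N))), mul_comm]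
    exact mul_le_mul_of_nonneg_left h1.le (pow_nonneg (hlp (φ (n + N))).le _)

end Pool.Agent.LPW.H59
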